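import Pool.Agent.MP_10964f_lc.Proof

open Cardinal Pool.Agent.MP_10964f_lc

/-- If the dominating number is singular then the strong polarized relation fails for it. -/
theorem Pool.Agent.Results.MP_10964f_lc.SingularNegative.result :
    dominatingNumber.IsSingular → ¬ StrongPolarized dominatingNumber ℵ₀ :=
  not_strongPolarized_of_singular
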