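import Pool.Agent.MP_10964f_lc.Sq

open Cardinal Pool.Agent.MP_10964f_lc

/-- Exact description of the square-bracket polarized relations for the pair `lam`, `ω` when
`lam` has the cofinality of the dominating number. -/
theorem Pool.Agent.Results.MP_10964f_lc.SquareBracket.result (lam theta : Cardinal.{0})
    (hcf : lam.ord.cof = dominatingNumber.ord.cof) (h2 : 2 ≤ theta) :
    ¬ SquareBracket lam theta ↔ dominatingNumber ≤ ultrafilterNumber ∧
      (theta ≤ ℵ₀ ∨ (theta = ℵ₁ ∧ lam.ord.cof = ℵ₁)) :=
  not_squareBracket_iff lam theta hcf h2
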